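import Pool.Agent.H85.G2.Top3
import Pool.Agent.H44.GT.Defs

/-!
# The topological block in the terms of `H44/GT/Defs`
-/

set_option autoImplicit false

namespace Pool.Agent.H85.G2

open Pool.Agent.H44.DU

variable {n : ℕ} {S : Surf n}

theorem conical_of {r : Side n → ℝ} (hr : ∀ c, 0 < r c ∧ r (nx (S.gl c)) = S.a c * r c) :
    S.Conical := by
  intro s m hm
  have h1 : ∀ k : ℕ, r (S.rot^[k] s) = (∏ j ∈ Finset.range k, S.a (S.rot^[j] s)) * r s := by
    intro k
    induction k with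
    | zero => simp
    | succ k ih =>
      rw [Function.iterate_succ_apply', Finset.prod_range_succ]
      have h2 : r (S.rot (S.rot^[k] s)) = S.a (S.rot^[k] s) * r (S.rot^[k] s) := (hr _).2
      rw [h2, ih]; ring
  have h3 := h1 m
  rw [hm] at h3
  have h4 := (hr s).1
  have h5 : ((∏ j ∈ Finset.range m, S.a (S.rot^[j] s)) - 1) * r s = 0 := by linarith
  have h6 := (mul_eq_zero.mp h5).resolve_right h4.ne'
  linarith

theorem conePts_of_conical (hcon : S.Conical) : S.ConePts := by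
  obtain ⟨l, hl⟩ := units hcon
  refine ⟨fun s => Real.exp (l s), fun c => ⟨Real.exp_pos _, ?_⟩⟩
  have h1 : l (nx (S.gl c)) = l c + Real.log (S.a c) := hl c
  show Real.exp (l (nx (S.gl c))) = S.a c * Real.exp (l c)
  rw [h1, Real.exp_add, Real.exp_log (S.a_pos c)]; ring

theorem conical_iff : S.ConePts ↔ S.Conical :=
  ⟨fun ⟨_, hr⟩ => conical_of hr, conePts_of_conical⟩

theorem transl_iff : S.Transl ↔ S.IsTranslation := by
  constructor
  · rintro ⟨h, h1, h2⟩
    refine ⟨fun i => (h i)⁻¹, fun i => inv_pos.mpr (h1 i), fun s => ?_⟩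
    show (h (S.gl s).1)⁻¹ * S.a s = (h s.1)⁻¹
    have h3 := h1 s.1
    have h4 := S.a_pos s
    rw [h2 s]
    field_simp
  · rintro ⟨r, h1, h2⟩
    refine ⟨fun i => (r i)⁻¹, fun i => inv_pos.mpr (h1 i), fun s => ?_⟩
    show (r (S.gl s).1)⁻¹ = S.a s * (r s.1)⁻¹
    have h3 := h1 (S.gl s).1
    have h4 := S.a_pos s
    rw [← h2 s]
    field_simp

theorem nv_eq : S.nv = Nat.card S.Vertex := rfl

theorem coc_iff {c : Side n → ℝ} : S.Coc c ↔ c ∈ S.Zc := by
  constructor
  · rintro ⟨h1, h2⟩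
    exact ⟨h1, fun i => h2 (i, 0)⟩
  · rintro ⟨h1, h2⟩
    refine ⟨h1, ?_⟩
    rintro ⟨i, k⟩
    have h3 := h2 i
    have h01 : nx ((i, 0) : Side n) = (i, 1) := rfl
    have h12 : nx ((i, 1) : Side n) = (i, 2) := rfl
    have h20 : nx ((i, 2) : Side n) = (i, 0) := rfl
    rcases side_cases (r := (i, k)) (s := (i, 0)) rfl with h | h | h
    · rw [h, h01, h12]; exact h3
    · rw [h, h01, h12, h20]; linarith
    · rw [h, h01, h12, h20, h01]; linarith

theorem orth_iff {c : Side n → ℝ} : S.Orth c ↔ S.chi c = 0 := by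
  unfold Surf.Orth Surf.chi
  simp only [mul_comm]

theorem om_eq (c c' : Side n → ℝ) : Surf.Om c c' = -2 * Surf.Bf c c' := by
  show ∑ i : Fin n, (c (i, 1) * c' (i, 0) - c (i, 0) * c' (i, 1)) =
    -2 * ∑ i : Fin n, (c (i, 0) * c' (i, 1) - c (i, 1) * c' (i, 0)) / 2
  rw [Finset.mul_sum]
  apply Finset.sum_congr rfl
  intro i _
  ring

/-- **G1.** -/
theorem pG1 (hc : S.Connected) (ht : ¬ S.Transl) {r : Side n → ℝ}
    (hr : ∀ c, 0 < r c ∧ r (nx (S.gl c)) = S.a c * r c) (hg : n ≤ 2 * S.nv + 4)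
    (c1 c2 c3 : Side n → ℝ) (h1 : S.Coc c1) (h2 : S.Coc c2) (h3 : S.Coc c3)
    (o1 : S.Orth c1) (o2 : S.Orth c2) (o3 : S.Orth c3) :
    ∃ (a1 a2 a3 κ : ℝ) (φ : Side n → ℝ), (∀ c, φ (nx (S.gl c)) = φ c) ∧
      ¬ (a1 = 0 ∧ a2 = 0 ∧ a3 = 0) ∧
      ∀ s, a1 * c1 s + a2 * c2 s + a3 * c3 s =
        κ * (Real.log (r (nx s)) - Real.log (r s)) + (φ (nx s) - φ s) := by
  have hl : ∀ s, (fun c => Real.log (r c)) (S.rot s) =
      (fun c => Real.log (r c)) s + Real.log (S.a s) := by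
    intro s
    show Real.log (r (nx (S.gl s))) = Real.log (r s) + Real.log (S.a s)
    rw [(hr s).2, Real.log_mul (S.a_pos s).ne' (hr s).1.ne']; ring
  obtain ⟨x, κ, f, hx, hf⟩ := three hc (conical_of hr) (fun h => ht (transl_iff.mpr h))
    (by rw [nv_eq] at hg; exact hg) (l := fun c => Real.log (r c)) hl ![c1, c2, c3]
    (by
      intro j
      fin_cases j
      · exact coc_iff.mp h1
      · exact coc_iff.mp h2
      · exact coc_iff.mp h3)
    (by
      intro j
      fin_cases j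
      · exact orth_iff.mp o1
      · exact orth_iff.mp o2
      · exact orth_iff.mp o3)
  refine ⟨x 0, x 1, x 2, κ, fun s => f (vx S s), fun c => ?_, ?_, fun s => hf s⟩
  · show f (vx S (nx (S.gl c))) = f (vx S c)
    rw [mk_nx_gl]
  · rintro ⟨e1, e2, e3⟩
    apply hx
    funext j
    fin_cases j
    · exact e1
    · exact e2
    · exact e3

/-- The function of the corners, constant around the vertices, is a function of the vertices. -/
lemma descend {φ : Side n → ℝ} (h : ∀ c, φ (nx (S.gl c)) = φ c) :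
    ∃ f : S.Vertex → ℝ, ∀ s, f (vx S s) = φ s := by
  refine ⟨Quot.lift φ ?_, fun s => rfl⟩
  intro a b hab
  rw [hab]
  exact (h a).symm

/-- **G2.** -/
theorem pG2 {r : Side n → ℝ} (hr : ∀ c, 0 < r c ∧ r (nx (S.gl c)) = S.a c * r c)
    (κ : ℝ) (φ : Side n → ℝ) (hφ : ∀ c, φ (nx (S.gl c)) = φ c) (q : Side n → ℝ)
    (hq : S.Coc q) (hq' : S.Orth q) :
    Surf.Om (fun s => κ * (Real.log (r (nx s)) - Real.log (r s)) + (φ (nx s) - φ s)) q = 0 := by
  have hl : ∀ s, (fun c => Real.log (r c)) (S.rot s) =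
      (fun c => Real.log (r c)) s + Real.log (S.a s) := by
    intro s
    show Real.log (r (nx (S.gl s))) = Real.log (r s) + Real.log (S.a s)
    rw [(hr s).2, Real.log_mul (S.a_pos s).ne' (hr s).1.ne']; ring
  obtain ⟨f, hf⟩ := descend hφ
  have e1 : (fun s => κ * (Real.log (r (nx s)) - Real.log (r s)) + (φ (nx s) - φ s)) =
      κ • (fun s => (fun c => Real.log (r c)) (nx s) - (fun c => Real.log (r c)) s) +
      (fun s => f (vx S (nx s)) - f (vx S s)) := by
    funext s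
    simp only [Pi.add_apply, Pi.smul_apply, smul_eq_mul, hf]
  have e2 := B_rho (l := fun c => Real.log (r c)) hl q (coc_iff.mp hq)
  rw [om_eq, e1, map_add, map_smul, LinearMap.add_apply, LinearMap.smul_apply,
    B_exact f q (coc_iff.mp hq), e2, orth_iff.mp hq']
  simp

end Pool.Agent.H85.G2
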