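import Pool.Agent.H85.G2.Stmt
import Pool.Agent.H44.DU.Basic2

/-!
# The Morse-Smale property of finite covers branched at the vertices
-/

set_option autoImplicit false

namespace Pool.Agent.H44.DU

/-- The triangulated surface `S` covers the triangulated surface `S₀`, the vertices being the
branch points: the triangle `i` of `S` is a copy of the triangle `π i` of `S₀`, and the gluings
correspond to each other. -/
structure Surf.Covers {m n : ℕ} (S : Surf m) (S₀ : Surf n) (π : Fin m → Fin n) : Prop where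
  vert : ∀ i k, S.v i k = S₀.v (π i) k
  glue : ∀ s : Side m, S₀.gl (π s.1, s.2) = (π (S.gl s).1, (S.gl s).2)
  scale : ∀ s : Side m, S.a s = S₀.a (π s.1, s.2)

end Pool.Agent.H44.DU

namespace Pool.Agent.H85.G2

open Pool.Agent.H44.DU MeasureTheory

variable {m n : ℕ} {S : Surf m} {S₀ : Surf n} {π : Fin m → Fin n}

/-- The projection of a side. -/
def pS (π : Fin m → Fin n) (s : Side m) : Side n := (π s.1, s.2)

/-- The projection of a point of a side. -/
def pr (π : Fin m → Fin n) (x : Side m × ℂ) : Side n × ℂ := (pS π x.1, x.2)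

lemma cP (h : S.Covers S₀ π) (s : Side m) : S₀.P (pS π s) = S.P s := (h.vert s.1 s.2).symm

lemma cQ (h : S.Covers S₀ π) (s : Side m) : S₀.Q (pS π s) = S.Q s := (h.vert s.1 (s.2 + 1)).symm

lemma cgl (h : S.Covers S₀ π) (s : Side m) : S₀.gl (pS π s) = pS π (S.gl s) := h.glue s

lemma ca (h : S.Covers S₀ π) (s : Side m) : S₀.a (pS π s) = S.a s := (h.scale s).symm

lemma cb (h : S.Covers S₀ π) (s : Side m) : S₀.b (pS π s) = S.b s := by
  have h1 := S.Q_gl s
  have h2 := S₀.Q_gl (pS π s)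
  rw [cgl h, cQ h, cP h, ca h] at h2
  rw [h1] at h2
  have h3 := add_left_cancel h2
  exact h3.symm

/-- Steps project. -/
theorem step_down (h : S.Covers S₀ π) {d : ℂ} {c : ℝ} {x y : Side m × ℂ} (hs : S.Step d c x y) :
    S₀.Step d c (pr π x) (pr π y) := by
  obtain ⟨h1, r, σ, h2, h3, h4, h5, h6, h7⟩ := hs
  refine ⟨?_, pS π r, σ, ?_, ?_, h4, ?_, ?_, ?_⟩
  · show x.2 ∈ openSegment ℝ (S₀.P (pS π x.1)) (S₀.Q (pS π x.1))
    rw [cP h, cQ h]; exact h1
  · show π r.1 = π x.1.1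
    rw [h2]
  · intro h8
    apply h3
    have h9 : r.2 = x.1.2 := congrArg (fun w : Side n => w.2) h8
    exact Prod.ext h2 h9
  · show x.2 + σ * d ∈ openSegment ℝ (S₀.P (pS π r)) (S₀.Q (pS π r))
    rw [cP h, cQ h]; exact h5
  · rw [h6, cgl h, ca h, cb h]; rfl
  · rw [h7, ca h]

/-- Steps lift. -/
theorem step_up (h : S.Covers S₀ π) {d : ℂ} {c : ℝ} {x : Side m × ℂ} {q : Side n × ℂ}
    (hs : S₀.Step d c (pr π x) q) : ∃ y, S.Step d c x y ∧ pr π y = q := by
  obtain ⟨h1, r, σ, h2, h3, h4, h5, h6, h7⟩ := hs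
  have hr : r = pS π (x.1.1, r.2) := Prod.ext h2 rfl
  refine ⟨(S.gl (x.1.1, r.2), S.a (x.1.1, r.2) * (x.2 + σ * d) + S.b (x.1.1, r.2)),
    ⟨?_, (x.1.1, r.2), σ, rfl, ?_, h4, ?_, rfl, ?_⟩, ?_⟩
  · have h1' : x.2 ∈ openSegment ℝ (S₀.P (pS π x.1)) (S₀.Q (pS π x.1)) := h1
    rw [cP h, cQ h] at h1'; exact h1'
  · intro h8
    apply h3
    rw [hr, h8]; rfl
  · have h5' : x.2 + σ * d ∈ openSegment ℝ (S₀.P r) (S₀.Q r) := h5
    rw [hr, cP h, cQ h] at h5'; exact h5'
  · rw [h7]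
    conv_lhs => rw [hr, ca h]
  · rw [h6]
    show (pS π (S.gl (x.1.1, r.2)), _) = (S₀.gl r, (S₀.a r : ℂ) * (x.2 + σ * d) + S₀.b r)
    rw [← cgl h, ← ca h, ← cb h, ← hr]

/-- Going backwards is unique. -/
theorem back_unique (hPT : T_PT) (hST : T_ST) {t : ℝ} (hG : S.Gd t) {c c' : ℝ}
    {x x' y : Side m × ℂ} (h : S.Step ((t : ℂ) + Complex.I) c x y)
    (h' : S.Step ((t : ℂ) + Complex.I) c' x' y) : x = x' := by
  obtain ⟨r, h1, h2, h3, h4, h5, h6⟩ := (hST m S t hG).2 c x y h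
  obtain ⟨r', h1', h2', h3', h4', h5', h6'⟩ := (hST m S t hG).2 c' x' y h'
  have e1 : S.gl r = S.gl r' := by
    rw [h3] at h3'
    exact congrArg Prod.fst h3'
  have e2 : r = r' := S.gl_inj e1
  subst e2
  have e3 : xi t x.2 = xi t x'.2 := S.mv_inj t r (h6.symm.trans h6')
  have e4 : x.1 = x'.1 := by
    rw [← e3] at h5'
    exact S.entry_unique (h2.symm.trans h2') h5 h5'
  have e5 : xi t (S.P x.1) ≠ xi t (S.Q x.1) := by
    intro h7
    have h8 : xi t (S.P x.1) < xi t x.2 ∧ xi t x.2 < xi t (S.Q x.1) := h5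
    rw [h7] at h8
    exact lt_asymm h8.1 h8.2
  have e6 := ((hPT m S t x.1 e5).2.2.2.2.2 x.2 h.1).1
  have e7 := ((hPT m S t x'.1 (by rw [← e4]; exact e5)).2.2.2.2.2 x'.2 h'.1).1
  refine Prod.ext e4 ?_
  rw [← e6, ← e7, e3, e4]

/-- A point over a point of a closed leaf lies on a closed leaf. -/
theorem per_up (h : S.Covers S₀ π) (hPT : T_PT) (hST : T_ST) {t : ℝ} (hG : S.Gd t)
    {x : Side m × ℂ} (hx : pr π x ∈ S₀.Per ((t : ℂ) + Complex.I)) :
    x ∈ S.Per ((t : ℂ) + Complex.I) := by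
  obtain ⟨M, y, c, ⟨hM, hy, hy0⟩, hyx⟩ := hx
  -- the periodic chain below
  have hper : ∀ k, S₀.Step ((t : ℂ) + Complex.I) (c (k % M)) (y (k % M)) (y ((k + 1) % M)) := by
    intro k
    have h4 := hy (k % M) (Nat.mod_lt _ hM)
    rcases Nat.lt_or_ge (k % M + 1) M with h5 | h5
    · have : (k + 1) % M = k % M + 1 := by
        rw [← Nat.mod_add_mod, Nat.mod_eq_of_lt h5]
      rw [this]; exact h4
    · have h6 : k % M + 1 = M := by
        have := Nat.mod_lt k hM
        omega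
      have : (k + 1) % M = 0 := by
        rw [← Nat.mod_add_mod, h6, Nat.mod_self]
      rw [this, ← hy0]
      rw [h6] at h4
      exact h4
  -- the lift
  have hlift : ∃ z : ℕ → Side m × ℂ, z 0 = x ∧ ∀ k, pr π (z k) = y (k % M) ∧
      S.Step ((t : ℂ) + Complex.I) (c (k % M)) (z k) (z (k + 1)) := by
    have hstep : ∀ (k : ℕ) (w : Side m × ℂ), pr π w = y (k % M) →
        ∃ w', S.Step ((t : ℂ) + Complex.I) (c (k % M)) w w' ∧ pr π w' = y ((k + 1) % M) := by
      intro k w hw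
      have h7 := hper k
      rw [← hw] at h7
      exact step_up h h7
    choose! f hf1 hf2 using hstep
    let z : ℕ → Side m × ℂ := fun k => Nat.rec x (fun k w => f k w) k
    have hz0 : z 0 = x := rfl
    have hzs : ∀ k, z (k + 1) = f k (z k) := fun k => rfl
    have hpz : ∀ k, pr π (z k) = y (k % M) := by
      intro k
      induction k with
      | zero => rw [hz0, Nat.zero_mod]; exact hyx.symm
      | succ k ih => rw [hzs]; exact hf2 k _ ih
    exact ⟨z, hz0, fun k => ⟨hpz k, by rw [hzs]; exact hf1 k _ (hpz k)⟩⟩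
  obtain ⟨z, hz0, hz⟩ := hlift
  -- pigeonhole
  obtain ⟨i, j, hij, hzij⟩ : ∃ i j : ℕ, i < j ∧ (z (i * M)).1 = (z (j * M)).1 := by
    obtain ⟨i, j, hne, heq⟩ := Finite.exists_ne_map_eq_of_infinite (fun k : ℕ => (z (k * M)).1)
    rcases lt_or_gt_of_ne hne with h1 | h1
    · exact ⟨i, j, h1, heq⟩
    · exact ⟨j, i, h1, heq.symm⟩
  have hsnd : ∀ k, (z (k * M)).2 = x.2 := by
    intro k
    have h8 : pr π (z (k * M)) = pr π x := by
      rw [(hz (k * M)).1, Nat.mul_mod_left, hyx]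
    exact congrArg (fun w : Side n × ℂ => w.2) h8
  have heq : z (i * M) = z (j * M) := Prod.ext hzij ((hsnd i).trans (hsnd j).symm)
  -- go back
  have hback : ∀ l a b : ℕ, z (a + l) = z (b + l) → z a = z b := by
    intro l
    induction l with
    | zero => intro a b h9; exact h9
    | succ l ih =>
      intro a b h9
      apply ih
      have s1 := (hz (a + l)).2
      have s2 := (hz (b + l)).2
      rw [show a + l + 1 = a + (l + 1) by ring, h9] at s1
      rw [show b + l + 1 = b + (l + 1) by ring] at s2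
      exact back_unique hPT hST hG s1 s2
  have h10 : z 0 = z ((j - i) * M) := by
    apply hback (i * M) 0 ((j - i) * M)
    rw [zero_add, ← Nat.add_mul, Nat.sub_add_cancel hij.le]
    exact heq
  refine ⟨(j - i) * M, z, fun k => c (k % M), ⟨?_, fun k _ => (hz k).2, h10.symm⟩, hz0⟩
  exact Nat.mul_pos (Nat.sub_pos_of_lt hij) hM

/-- Accumulation at closed leaves lifts. -/
theorem acc_up (h : S.Covers S₀ π) (hPT : T_PT) (hST : T_ST) {t : ℝ} (hG : S.Gd t)
    {x : ℕ → Side m × ℂ} (hx : S₀.AccPer ((t : ℂ) + Complex.I) (fun k => pr π (x k))) :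
    S.AccPer ((t : ℂ) + Complex.I) x := by
  obtain ⟨q, hq, hacc⟩ := hx
  obtain ⟨s, hs1, hs2⟩ : ∃ s : Side m, pS π s = q.1 ∧ ∀ ε > (0 : ℝ), ∀ N : ℕ, ∃ k ≥ N,
      (x k).1 = s ∧ ‖(x k).2 - q.2‖ < ε := by
    by_contra hcon
    push Not at hcon
    have h1 : ∀ s : Side m, ∃ ε : ℝ, 0 < ε ∧ ∃ N : ℕ, pS π s = q.1 → ∀ k ≥ N, (x k).1 = s →
        ε ≤ ‖(x k).2 - q.2‖ := by
      intro s
      by_cases hs : pS π s = q.1
      · obtain ⟨ε, hε, N, hN⟩ := hcon s hs
        exact ⟨ε, hε, N, fun _ => hN⟩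
      · exact ⟨1, one_pos, 0, fun h2 => absurd h2 hs⟩
    choose ε hε N hN using h1
    -- the minimum and the maximum
    have hne : Nonempty (Side m) := by
      obtain ⟨k, _, _, _⟩ := hacc 1 one_pos 0
      exact ⟨(x k).1⟩
    obtain ⟨s₀, hs₀⟩ := Finite.exists_min ε
    obtain ⟨k, hk, hk1, hk2⟩ := hacc (ε s₀) (hε s₀) (Finset.univ.sup N)
    have h3 := hN (x k).1 hk1 k ((Finset.le_sup (Finset.mem_univ _)).trans hk) rfl
    have h4 := hs₀ (x k).1
    have h5 : ‖(x k).2 - q.2‖ < ε s₀ := hk2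
    linarith
  refine ⟨(s, q.2), ?_, hs2⟩
  apply per_up h hPT hST hG
  have : pr π (s, q.2) = q := Prod.ext hs1 rfl
  rw [this]
  exact hq

/-- The projection is surjective on triangles. -/
theorem surj (h : S.Covers S₀ π) (hm : 0 < m) (hc : S₀.Connected) : Function.Surjective π := by
  intro j
  have h1 := hc (π ⟨0, hm⟩) j
  induction h1 with
  | refl => exact ⟨_, rfl⟩
  | @tail b c _ h2 ih =>
    obtain ⟨k, hk⟩ := h2
    obtain ⟨i, hi⟩ := ih
    refine ⟨(S.gl (i, k)).1, ?_⟩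
    have h3 := cgl h (i, k)
    rw [← hk, ← hi]
    exact (congrArg Prod.fst h3).symm

/-- The Morse-Smale property lifts, for the slopes. -/
theorem ms_up_slope (h : S.Covers S₀ π) (hPT : T_PT) (hST : T_ST) (hm : 0 < m)
    (hc : S₀.Connected) {t : ℝ} (hG : S.Gd t) (hms : S₀.MorseSmale ((t : ℂ) + Complex.I)) :
    S.MorseSmale ((t : ℂ) + Complex.I) := by
  obtain ⟨h1, h2, h3, h4, h5⟩ := hms
  have hdown : ∀ p ∈ S.Per ((t : ℂ) + Complex.I), pr π p ∈ S₀.Per ((t : ℂ) + Complex.I) := by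
    rintro p ⟨M, x, c, ⟨e1, e2, e3⟩, e4⟩
    exact ⟨M, fun k => pr π (x k), c, ⟨e1, fun k hk => step_down h (e2 k hk),
      by show pr π (x M) = pr π (x 0); rw [e3]⟩, by show pr π (x 0) = _; rw [e4]⟩
  refine ⟨?_, ?_, ?_, ?_, ?_⟩
  · -- finite
    have h6 : S.Per ((t : ℂ) + Complex.I) ⊆
        (Set.univ : Set (Side m)) ×ˢ (Prod.snd '' S₀.Per ((t : ℂ) + Complex.I)) := by
      intro p hp
      exact ⟨Set.mem_univ _, ⟨pr π p, hdown p hp, rfl⟩⟩
    exact (Set.finite_univ.prod (h1.image _)).subset h6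
  · obtain ⟨q, hq⟩ := h2
    obtain ⟨i, hi⟩ := surj h hm hc q.1.1
    refine ⟨((i, q.1.2), q.2), per_up h hPT hST hG ?_⟩
    have : pr π ((i, q.1.2), q.2) = q := Prod.ext (Prod.ext hi rfl) rfl
    rw [this]
    exact hq
  · rintro M x c ⟨e1, e2, e3⟩
    exact h3 M (fun k => pr π (x k)) c ⟨e1, fun k hk => step_down h (e2 k hk),
      by show pr π (x M) = pr π (x 0); rw [e3]⟩
  · intro x hx
    apply acc_up h hPT hST hG
    apply h4
    intro k
    obtain ⟨c, hc⟩ := hx k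
    exact ⟨c, step_down h hc⟩
  · intro x hx
    apply acc_up h hPT hST hG
    apply h5
    intro k
    obtain ⟨c, hc⟩ := hx k
    exact ⟨c, step_down h hc⟩

/-- **Covers.** If almost every foliation of `S₀` is Morse-Smale, almost every foliation of every
finite cover branched at the vertices is Morse-Smale. -/
theorem covers (hPT : T_PT) (hST : T_ST) (hSC : T_SC) (hAE : T_AE) (hCO : T_CO)
    (h : S.Covers S₀ π) (hm : 0 < m) (hc : S₀.Connected)
    (hms : ∀ᵐ θ : ℝ, S₀.MorseSmale (Complex.exp (θ * Complex.I))) :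
    ∀ᵐ θ : ℝ, S.MorseSmale (Complex.exp (θ * Complex.I)) := by
  have h0 := hAE {t : ℝ | ¬ S.Gd t} ((hCO m S).measure_zero volume)
  filter_upwards [h0, hms] with θ h1 h2
  obtain ⟨t, ht, l, hl, he⟩ := h1
  have hG : S.Gd t := not_not.mp ht
  have h3 : S₀.MorseSmale ((t : ℂ) + Complex.I) := by
    rw [he] at h2
    have h4 := (hSC n S₀ _ h2)
    rcases lt_or_gt_of_ne hl with h5 | h5
    · have h6 := (hSC n S₀ _ h4.2).1 (-l⁻¹) (by
        have := inv_lt_zero.mpr h5
        linarith)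
      have h7 : ((-l⁻¹ : ℝ) : ℂ) * -((l : ℂ) * ((t : ℂ) + Complex.I)) = (t : ℂ) + Complex.I := by
        push_cast
        have : (l : ℂ) ≠ 0 := by exact_mod_cast hl
        field_simp
      rw [h7] at h6
      exact h6
    · have h6 := h4.1 l⁻¹ (inv_pos.mpr h5)
      have h7 : ((l⁻¹ : ℝ) : ℂ) * ((l : ℂ) * ((t : ℂ) + Complex.I)) = (t : ℂ) + Complex.I := by
        push_cast
        have : (l : ℂ) ≠ 0 := by exact_mod_cast hl
        field_simp
      rw [h7] at h6
      exact h6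
  have h8 := ms_up_slope h hPT hST hm hc hG h3
  rw [he]
  rcases lt_or_gt_of_ne hl with h5 | h5
  · have h6 := (hSC m S _ ((hSC m S _ h8).2)).1 (-l) (by linarith)
    have h7 : ((-l : ℝ) : ℂ) * -((t : ℂ) + Complex.I) = (l : ℂ) * ((t : ℂ) + Complex.I) := by
      push_cast; ring
    rw [h7] at h6
    exact h6
  · exact (hSC m S _ h8).1 l h5

end Pool.Agent.H85.G2
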