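import Pool.Agent.H44.DV.Defs

/-!
# Dilation surfaces: vertices, translation surfaces, cochains
-/

set_option autoImplicit false

namespace Pool.Agent.H44.DU.Surf

variable {n : ℕ} (S : Surf n)

/-- Turning around the first endpoint of the side `s`: the side after `gl s` in its triangle, which
starts at the same point of the surface as `s`. -/
def rot (s : Side n) : Side n := ((S.gl s).1, (S.gl s).2 + 1)

/-- The vertices of the triangulation of the surface: the sides, up to turning around their first
endpoints. -/
def Vertex : Type := Quot (fun s t : Side n => t = S.rot s)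

/-- The vertices are conical singularities (or regular points): the product of the scales around
every vertex is `1`. -/
def Conical : Prop :=
  ∀ (s : Side n) (m : ℕ), S.rot^[m] s = s → ∏ k ∈ Finset.range m, S.a (S.rot^[k] s) = 1

/-- The surface is a translation surface: after a dilation of every triangle `i` by `r i`, all
gluings are translations. -/
def IsTranslation : Prop :=
  ∃ r : Fin n → ℝ, (∀ i, 0 < r i) ∧ ∀ s, r (S.gl s).1 * S.a s = r s.1

/-- The closed cochains: real functions of the oriented sides, of sum zero on every triangle. -/
def Zc : Submodule ℝ (Side n → ℝ) where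
  carrier := {p | (∀ s, p (S.gl s) = -p s) ∧ ∀ i, p (i, 0) + p (i, 1) + p (i, 2) = 0}
  add_mem' := by
    rintro p q ⟨hp1, hp2⟩ ⟨hq1, hq2⟩
    refine ⟨fun s => ?_, fun i => ?_⟩
    · simp only [Pi.add_apply, hp1 s, hq1 s]; ring
    · have h1 := hp2 i
      have h2 := hq2 i
      simp only [Pi.add_apply]
      linarith
  zero_mem' := ⟨fun s => by simp, fun i => by simp⟩
  smul_mem' := by
    rintro c p ⟨hp1, hp2⟩
    refine ⟨fun s => ?_, fun i => ?_⟩
    · simp only [Pi.smul_apply, smul_eq_mul, hp1 s]; ring
    · have h1 := hp2 i
      simp only [Pi.smul_apply, smul_eq_mul]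
      linear_combination c * h1

/-- The intersection form of cochains: the sum of the oriented areas of the triangles in the plane
of the two primitives. -/
noncomputable def Bf : (Side n → ℝ) →ₗ[ℝ] (Side n → ℝ) →ₗ[ℝ] ℝ :=
  LinearMap.mk₂ ℝ (fun p q => ∑ i : Fin n, (p (i, 0) * q (i, 1) - p (i, 1) * q (i, 0)) / 2)
    (by
      intro p p' q
      rw [← Finset.sum_add_distrib]
      apply Finset.sum_congr rfl
      intro i _
      simp only [Pi.add_apply]; ring)
    (by
      intro c p q
      rw [smul_eq_mul, Finset.mul_sum]
      apply Finset.sum_congr rfl
      intro i _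
      simp only [Pi.smul_apply, smul_eq_mul]; ring)
    (by
      intro p q q'
      rw [← Finset.sum_add_distrib]
      apply Finset.sum_congr rfl
      intro i _
      simp only [Pi.add_apply]; ring)
    (by
      intro c p q
      rw [smul_eq_mul, Finset.mul_sum]
      apply Finset.sum_congr rfl
      intro i _
      simp only [Pi.smul_apply, smul_eq_mul]; ring)

/-- The value of the class of the logarithm of the scales on a cochain. -/
noncomputable def chi (p : Side n → ℝ) : ℝ := ∑ s : Side n, p s * Real.log (S.a s)

end Pool.Agent.H44.DU.Surf
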