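import Pool.Agent.H85.G2.Stmt

/-!
# Dilation surfaces of genus at most two: the topology
-/

set_option autoImplicit false

namespace Pool.Agent.H85.G2

open Pool.Agent.H44.DU Module

/-- An alternating form of corank at most three is decomposable. -/
theorem decomp {E : Type*} [AddCommGroup E] [Module ℝ E] [FiniteDimensional ℝ E]
    (B : E →ₗ[ℝ] E →ₗ[ℝ] ℝ) (W N : Submodule ℝ E) (hNW : N ≤ W)
    (hB : ∀ x ∈ W, B x x = 0) (hN : ∀ x ∈ N, ∀ y ∈ W, B x y = 0)
    (hd : finrank ℝ W ≤ finrank ℝ N + 3) :
    ∃ u v : E →ₗ[ℝ] ℝ, ∀ p ∈ W, ∀ q ∈ W, B p q = u p * v q - u q * v p := by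
  have hanti : ∀ x ∈ W, ∀ y ∈ W, B x y = - B y x := by
    intro x hx y hy
    have h := hB (x + y) (W.add_mem hx hy)
    simp only [map_add, LinearMap.add_apply, hB x hx, hB y hy] at h
    linarith
  by_cases hall : ∀ p ∈ W, ∀ q ∈ W, B p q = 0
  · exact ⟨0, 0, fun p hp q hq => by simp [hall p hp q hq]⟩
  push Not at hall
  obtain ⟨x1, hx1, y, hy, hxy1⟩ := hall
  obtain ⟨x, hx, hxy⟩ : ∃ x ∈ W, B x y = 1 :=
    ⟨(B x1 y)⁻¹ • x1, W.smul_mem _ hx1, by simp [hxy1]⟩
  have hyx : B y x = -1 := by rw [hanti y hy x hx, hxy]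
  have hxx := hB x hx
  have hyy := hB y hy
  -- the orthogonal of x and y
  have key : ∀ z ∈ W, ∀ z' ∈ W, B x z = 0 → B y z = 0 → B x z' = 0 → B y z' = 0 → B z z' = 0 := by
    intro z hz z' hz' h1 h2 h3 h4
    by_contra h5
    have h6 : B z' z = - B z z' := hanti z' hz' z hz
    have hzx : B z x = 0 := by rw [hanti z hz x hx, h1, neg_zero]
    have hzy : B z y = 0 := by rw [hanti z hz y hy, h2, neg_zero]
    have hzx' : B z' x = 0 := by rw [hanti z' hz' x hx, h3, neg_zero]
    have hzy' : B z' y = 0 := by rw [hanti z' hz' y hy, h4, neg_zero]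
    let φ : (N × (Fin 4 → ℝ)) →ₗ[ℝ] W :=
      { toFun := fun m => ⟨(m.1 : E) + (m.2 0 • x + m.2 1 • y + m.2 2 • z + m.2 3 • z'),
          W.add_mem (hNW m.1.2) (W.add_mem (W.add_mem (W.add_mem (W.smul_mem _ hx)
            (W.smul_mem _ hy)) (W.smul_mem _ hz)) (W.smul_mem _ hz'))⟩
        map_add' := by
          intro a b
          apply Subtype.ext
          simp only [Prod.fst_add, Prod.snd_add, Submodule.coe_add, Pi.add_apply]
          module
        map_smul' := by
          intro c a
          apply Subtype.ext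
          simp only [Prod.smul_fst, Prod.smul_snd, Submodule.coe_smul, Pi.smul_apply,
            smul_eq_mul, RingHom.id_apply]
          module }
    have hinj : Function.Injective φ := by
      rw [← LinearMap.ker_eq_bot, LinearMap.ker_eq_bot']
      intro m hm
      have hm' : (m.1 : E) + (m.2 0 • x + m.2 1 • y + m.2 2 • z + m.2 3 • z') = 0 :=
        congrArg Subtype.val hm
      have f1 := congrArg (fun w => B w y) hm'
      have f2 := congrArg (fun w => B w x) hm'
      have f3 := congrArg (fun w => B w z') hm'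
      have f4 := congrArg (fun w => B w z) hm'
      simp only [map_add, map_smul, LinearMap.add_apply, LinearMap.smul_apply, smul_eq_mul,
        map_zero, LinearMap.zero_apply, hN _ m.1.2 y hy, hN _ m.1.2 x hx, hN _ m.1.2 z hz,
        hN _ m.1.2 z' hz', hxy, hyx, hxx, hyy, h1, h2, h3, h4, hzx, hzy, hzx', hzy',
        hB z hz, hB z' hz', h6] at f1 f2 f3 f4
      have g0 : m.2 0 = 0 := by linarith
      have g1 : m.2 1 = 0 := by linarith
      have g2 : m.2 2 = 0 := by
        have : m.2 2 * B z z' = 0 := by linarith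
        rcases mul_eq_zero.1 this with h | h
        · exact h
        · exact absurd h h5
      have g3 : m.2 3 = 0 := by
        have : m.2 3 * B z z' = 0 := by linarith
        rcases mul_eq_zero.1 this with h | h
        · exact h
        · exact absurd h h5
      have g4 : (m.1 : E) = 0 := by
        rw [g0, g1, g2, g3] at hm'
        simpa using hm'
      refine Prod.ext (Subtype.ext g4) (funext fun i => ?_)
      fin_cases i
      · exact g0
      · exact g1
      · exact g2
      · exact g3
    have h7 := LinearMap.finrank_le_finrank_of_injective hinj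
    rw [Module.finrank_prod, Module.finrank_fin_fun] at h7
    omega
  refine ⟨B.flip y, B x, fun p hp q hq => ?_⟩
  have hpx : B p x = - B x p := hanti p hp x hx
  have hqx : B q x = - B x q := hanti q hq x hx
  have hyp : B y p = - B p y := hanti y hy p hp
  have hyq : B y q = - B q y := hanti y hy q hq
  have h1 := key (p - B p y • x - B x p • y)
    (W.sub_mem (W.sub_mem hp (W.smul_mem _ hx)) (W.smul_mem _ hy))
    (q - B q y • x - B x q • y)
    (W.sub_mem (W.sub_mem hq (W.smul_mem _ hx)) (W.smul_mem _ hy))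
    (by simp only [map_sub, map_smul, smul_eq_mul, hxx, hxy]; ring)
    (by simp only [map_sub, map_smul, smul_eq_mul, hyx, hyy, hyp]; ring)
    (by simp only [map_sub, map_smul, smul_eq_mul, hxx, hxy]; ring)
    (by simp only [map_sub, map_smul, smul_eq_mul, hyx, hyy, hyq]; ring)
  simp only [map_sub, map_smul, LinearMap.sub_apply, LinearMap.smul_apply, smul_eq_mul, hxx, hyy,
    hxy, hyx, hyq, hpx] at h1
  simp only [LinearMap.flip_apply]
  linarith

end Pool.Agent.H85.G2
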