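import Pool.Agent.H85.G2.Top
import Pool.Agent.H44.DU.Basic

/-!
# Dilation surfaces of genus at most two: the intersection form on the cochains orthogonal to the
scales is a determinant
-/

set_option autoImplicit false

namespace Pool.Agent.H85.G2

open Pool.Agent.H44.DU Module

variable {n : ℕ} (S : Surf n)

lemma gl_ne (s : Side n) : S.gl s ≠ s := by
  intro h
  have h1 := S.Q_gl s
  have h2 := S.P_gl s
  rw [h] at h1 h2
  have h3 : (1 + (S.a s : ℂ)) * (S.P s - S.Q s) = 0 := by linear_combination h2 - h1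
  have h4 : (1 + (S.a s : ℂ)) ≠ 0 := by
    have := S.a_pos s
    intro h5
    have h6 : ((1 + S.a s : ℝ) : ℂ) = 0 := by push_cast; exact h5
    rw [Complex.ofReal_eq_zero] at h6
    linarith
  exact S.P_ne_Q s (sub_eq_zero.mp ((mul_eq_zero.mp h3).resolve_left h4))

lemma log_gl (s : Side n) : Real.log (S.a (S.gl s)) = - Real.log (S.a s) := by
  rw [S.a_gl, Real.log_inv]

/-- The involution of the sides. -/
def glE : Side n ≃ Side n := ⟨S.gl, S.gl, S.gl_gl, S.gl_gl⟩

/-- The antisymmetric functions of the sides. -/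
def Ac : Submodule ℝ (Side n → ℝ) where
  carrier := {p | ∀ s, p (S.gl s) = -p s}
  add_mem' := by
    intro p q hp hq s
    simp only [Pi.add_apply, hp s, hq s]; ring
  zero_mem' := fun s => by simp
  smul_mem' := by
    intro c p hp s
    simp only [Pi.smul_apply, smul_eq_mul, hp s]; ring

/-- The symmetric functions of the sides. -/
def Sc : Submodule ℝ (Side n → ℝ) where
  carrier := {p | ∀ s, p (S.gl s) = p s}
  add_mem' := by
    intro p q hp hq s
    simp only [Pi.add_apply, hp s, hq s]
  zero_mem' := fun s => by simp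
  smul_mem' := by
    intro c p hp s
    simp only [Pi.smul_apply, smul_eq_mul, hp s]

lemma isCompl_AS : IsCompl (Ac S) (Sc S) := by
  constructor
  · rw [Submodule.disjoint_def]
    intro p hp hq
    funext s
    have h1 : p (S.gl s) = - p s := hp s
    have h2 : p (S.gl s) = p s := hq s
    simp only [Pi.zero_apply]
    linarith
  · rw [codisjoint_iff, eq_top_iff]
    intro p _
    rw [Submodule.mem_sup]
    refine ⟨fun s => (p s - p (S.gl s)) / 2, fun s => ?_, fun s => (p s + p (S.gl s)) / 2,
      fun s => ?_, ?_⟩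
    · simp only [S.gl_gl]; ring
    · simp only [S.gl_gl]; ring
    · funext s
      simp only [Pi.add_apply]
      ring

/-- A number of a side. -/
def num (s : Side n) : ℕ := s.1 * 3 + s.2

lemma num_inj {s t : Side n} (h : num s = num t) : s = t := by
  obtain ⟨⟨i, hi⟩, ⟨k, hk⟩⟩ := s
  obtain ⟨⟨j, hj⟩, ⟨l, hl⟩⟩ := t
  simp only [num] at h
  have : i = j ∧ k = l := by omega
  obtain ⟨rfl, rfl⟩ := this
  rfl

/-- A choice of signs. -/
def eps (s : Side n) : ℝ := if num s < num (S.gl s) then 1 else -1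

lemma eps_gl (s : Side n) : eps S (S.gl s) = - eps S s := by
  unfold eps
  rw [S.gl_gl]
  have h : num (S.gl s) ≠ num s := fun h => gl_ne S s (num_inj h)
  rcases lt_or_gt_of_ne h with h1 | h1
  · rw [if_pos h1, if_neg (by omega), neg_neg]
  · rw [if_neg (by omega), if_pos h1]

lemma eps_sq (s : Side n) : eps S s * eps S s = 1 := by
  unfold eps
  split <;> norm_num

/-- The multiplication by the signs. -/
noncomputable def epsL : (Side n → ℝ) →ₗ[ℝ] (Side n → ℝ) where
  toFun p s := eps S s * p s
  map_add' p q := by funext s; simp only [Pi.add_apply]; ring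
  map_smul' c p := by funext s; simp only [Pi.smul_apply, smul_eq_mul, RingHom.id_apply]; ring

lemma epsL_inv : Function.Involutive (epsL S) := by
  intro p
  funext s
  show eps S s * (eps S s * p s) = p s
  rw [← mul_assoc, eps_sq, one_mul]

lemma finrank_Ac : 2 * finrank ℝ (Ac S) = 3 * n := by
  have h1 := Submodule.finrank_add_eq_of_isCompl (isCompl_AS S)
  have h2 : finrank ℝ (Ac S) = finrank ℝ (Sc S) := by
    have h4 : Sc S = (Ac S).map (LinearEquiv.ofInvolutive (epsL S) (epsL_inv S) :
        (Side n → ℝ) →ₗ[ℝ] (Side n → ℝ)) := by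
      ext q
      rw [Submodule.mem_map]
      constructor
      · intro hq
        refine ⟨epsL S q, fun s => ?_, epsL_inv S q⟩
        have h : q (S.gl s) = q s := hq s
        show eps S (S.gl s) * q (S.gl s) = - (eps S s * q s)
        rw [eps_gl, h]; ring
      · rintro ⟨p, hp, rfl⟩
        intro s
        have h : p (S.gl s) = - p s := hp s
        show eps S (S.gl s) * p (S.gl s) = eps S s * p s
        rw [eps_gl, h]; ring
    rw [h4]
    exact (LinearEquiv.finrank_map_eq _ _).symm
  have h3 : finrank ℝ (Side n → ℝ) = 3 * n := by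
    rw [Module.finrank_fintype_fun_eq_card, Fintype.card_prod, Fintype.card_fin, Fintype.card_fin]
    ring
  omega

/-- The sum over the triangles. -/
def D : (Side n → ℝ) →ₗ[ℝ] (Fin n → ℝ) where
  toFun p i := p (i, 0) + p (i, 1) + p (i, 2)
  map_add' p q := by funext i; simp only [Pi.add_apply]; ring
  map_smul' c p := by funext i; simp only [Pi.smul_apply, smul_eq_mul, RingHom.id_apply]; ring

/-- The sum over the triangles on the antisymmetric functions. -/
def D1 : Ac S →ₗ[ℝ] (Fin n → ℝ) := D.comp (Ac S).subtype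

lemma Zc_eq : S.Zc = (LinearMap.ker (D1 S)).map (Ac S).subtype := by
  ext p
  rw [Submodule.mem_map]
  constructor
  · rintro ⟨h1, h2⟩
    exact ⟨⟨p, h1⟩, by rw [LinearMap.mem_ker]; funext i; exact h2 i, rfl⟩
  · rintro ⟨q, hq, rfl⟩
    rw [LinearMap.mem_ker] at hq
    exact ⟨q.2, fun i => congrFun hq i⟩

lemma finrank_Zc : finrank ℝ S.Zc = finrank ℝ (LinearMap.ker (D1 S)) := by
  rw [Zc_eq]
  exact Submodule.finrank_map_subtype_eq _ _

/-- The antisymmetric indicator of a side. -/
noncomputable def ind (s : Side n) : Ac S :=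
  ⟨fun r => Pi.single (M := fun _ => ℝ) s 1 r - Pi.single (M := fun _ => ℝ) (S.gl s) 1 r, by
    intro r
    have h1 : (Pi.single (M := fun _ => ℝ) s (1 : ℝ) (S.gl r)) =
        Pi.single (M := fun _ => ℝ) (S.gl s) (1 : ℝ) r := by
      rw [Pi.single_apply, Pi.single_apply]
      have : S.gl r = s ↔ r = S.gl s := by
        constructor
        · intro h; rw [← h, S.gl_gl]
        · intro h; rw [h, S.gl_gl]
      simp only [this]
    have h2 : (Pi.single (M := fun _ => ℝ) (S.gl s) (1 : ℝ) (S.gl r)) =
        Pi.single (M := fun _ => ℝ) s (1 : ℝ) r := by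
      rw [Pi.single_apply, Pi.single_apply]
      have : S.gl r = S.gl s ↔ r = s := by
        constructor
        · intro h; rw [← S.gl_gl r, h, S.gl_gl]
        · intro h; rw [h]
      simp only [this]
    show _ - _ = -(_ - _)
    rw [h1, h2]; ring⟩

lemma D1_ind (s : Side n) : D1 S (ind S s) = Pi.single s.1 1 - Pi.single (S.gl s).1 1 := by
  have key : ∀ t : Side n, D (fun r => Pi.single (M := fun _ => ℝ) t (1 : ℝ) r) =
      Pi.single t.1 1 := by
    intro t
    funext i
    obtain ⟨j, k⟩ := t
    show Pi.single (M := fun _ => ℝ) (j, k) (1 : ℝ) (i, 0) +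
      Pi.single (M := fun _ => ℝ) (j, k) (1 : ℝ) (i, 1) +
      Pi.single (M := fun _ => ℝ) (j, k) (1 : ℝ) (i, 2) = Pi.single (M := fun _ => ℝ) j 1 i
    simp only [Pi.single_apply, Prod.mk.injEq]
    by_cases h : i = j
    · subst h
      fin_cases k <;> simp
    · simp [h]
  have h1 : D1 S (ind S s) = D (fun r => Pi.single (M := fun _ => ℝ) s (1 : ℝ) r) -
      D (fun r => Pi.single (M := fun _ => ℝ) (S.gl s) (1 : ℝ) r) := by
    rw [← map_sub]; rfl
  rw [h1, key, key]

variable {S}

lemma const_of_conn (hc : S.Connected) (F : Fin n → ℝ)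
    (h : ∀ s : Side n, F s.1 = F (S.gl s).1) (i j : Fin n) : F i = F j := by
  have h1 := hc i j
  induction h1 with
  | refl => rfl
  | @tail b c _ h2 ih =>
    obtain ⟨k, hk⟩ := h2
    rw [ih, ← hk]
    exact h (b, k)

lemma ann_le (hc : S.Connected) (i₀ : Fin n) :
    (LinearMap.range (D1 S)).dualAnnihilator ≤
      Submodule.span ℝ {∑ i : Fin n, (LinearMap.proj i : (Fin n → ℝ) →ₗ[ℝ] ℝ)} := by
  intro f hf
  rw [Submodule.mem_dualAnnihilator] at hf
  have h1 : ∀ s : Side n, f (Pi.single s.1 1) = f (Pi.single (S.gl s).1 1) := by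
    intro s
    have h2 := hf _ ⟨ind S s, rfl⟩
    rw [D1_ind, map_sub] at h2
    linarith
  have h3 := const_of_conn hc (fun i => f (Pi.single i 1)) h1
  rw [Submodule.mem_span_singleton]
  refine ⟨f (Pi.single i₀ 1), ?_⟩
  apply LinearMap.pi_ext'
  intro i
  apply LinearMap.ext_ring
  simp only [LinearMap.comp_apply, LinearMap.smul_apply, LinearMap.sum_apply, LinearMap.proj_apply,
    LinearMap.single_apply, smul_eq_mul]
  rw [Finset.sum_eq_single i]
  · rw [Pi.single_eq_same, mul_one]
    exact h3 i₀ i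
  · intro j _ hj
    rw [Pi.single_eq_of_ne hj]
  · intro h; exact absurd (Finset.mem_univ _) h

lemma rank_D1 (hc : S.Connected) (i₀ : Fin n) : n ≤ finrank ℝ (LinearMap.range (D1 S)) + 1 := by
  have h1 := Subspace.finrank_add_finrank_dualAnnihilator_eq (LinearMap.range (D1 S))
  rw [Module.finrank_fin_fun] at h1
  have h2 : finrank ℝ (LinearMap.range (D1 S)).dualAnnihilator ≤ 1 := by
    refine (Submodule.finrank_mono (ann_le hc i₀)).trans ?_
    refine (finrank_span_le_card _).trans ?_
    simp
  omega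

/-- The value of the class of the scales, as a linear form. -/
noncomputable def chiL (S : Surf n) : (Side n → ℝ) →ₗ[ℝ] ℝ where
  toFun p := S.chi p
  map_add' p q := by
    simp only [Surf.chi, Pi.add_apply, add_mul, Finset.sum_add_distrib]
  map_smul' c p := by
    simp only [Surf.chi, Pi.smul_apply, smul_eq_mul, RingHom.id_apply, Finset.mul_sum, mul_assoc]

lemma chi_ind (s : Side n) : chiL S (ind S s : Side n → ℝ) = 2 * Real.log (S.a s) := by
  show ∑ r : Side n, ((Pi.single (M := fun _ => ℝ) s 1 r -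
    Pi.single (M := fun _ => ℝ) (S.gl s) 1 r) * Real.log (S.a r)) = _
  simp only [sub_mul, Finset.sum_sub_distrib, Pi.single_apply, ite_mul, one_mul, zero_mul,
    Finset.sum_ite_eq', Finset.mem_univ, if_true]
  rw [log_gl]; ring

/-- If the class of the scales vanishes on all cochains, the surface is a translation surface. -/
lemma chi_ne (ht : ¬ S.IsTranslation) : ∃ p ∈ S.Zc, S.chi p ≠ 0 := by
  by_contra hcon
  push Not at hcon
  apply ht
  have h1 : (chiL S).comp (Ac S).subtype ∈ (LinearMap.ker (D1 S)).dualAnnihilator := by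
    rw [Submodule.mem_dualAnnihilator]
    intro q hq
    rw [LinearMap.mem_ker] at hq
    exact hcon q ⟨q.2, fun i => congrFun hq i⟩
  rw [← LinearMap.range_dualMap_eq_dualAnnihilator_ker] at h1
  obtain ⟨g, hg⟩ := h1
  have h2 : ∀ s : Side n, 2 * Real.log (S.a s) =
      g (Pi.single s.1 1) - g (Pi.single (S.gl s).1 1) := by
    intro s
    have h3 := LinearMap.congr_fun hg (ind S s)
    rw [LinearMap.dualMap_apply, D1_ind, map_sub] at h3
    rw [h3]
    exact (chi_ind s).symm
  refine ⟨fun i => Real.exp (g (Pi.single i 1) / 2), fun i => Real.exp_pos _, fun s => ?_⟩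
  have h4 := h2 s
  have h5 : S.a s = Real.exp ((g (Pi.single s.1 1) - g (Pi.single (S.gl s).1 1)) / 2) := by
    rw [← h4, mul_div_cancel_left₀ _ (two_ne_zero), Real.exp_log (S.a_pos s)]
  show Real.exp (g (Pi.single (S.gl s).1 1) / 2) * S.a s = Real.exp (g (Pi.single s.1 1) / 2)
  rw [h5, ← Real.exp_add]
  congr 1
  ring

variable (S)

/-- The vertex where a side starts. -/
def vx (s : Side n) : S.Vertex := Quot.mk _ s

/-- The coboundary. -/
noncomputable def del : (S.Vertex → ℝ) →ₗ[ℝ] (Side n → ℝ) where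
  toFun f s := f (vx S (nx s)) - f (vx S s)
  map_add' f g := by funext s; simp only [Pi.add_apply]; ring
  map_smul' c f := by
    funext s; simp only [Pi.smul_apply, smul_eq_mul, RingHom.id_apply]; ring

lemma vx_rot (s : Side n) : vx S (S.rot s) = vx S s :=
  (Quot.sound (r := fun s t : Side n => t = S.rot s) (a := s) (b := S.rot s) rfl).symm

lemma mk_nx_gl (s : Side n) :
    vx S (nx (S.gl s)) = vx S s := vx_rot S s

lemma mk_nx (s : Side n) :
    vx S (nx s) = vx S (S.gl s) := by
  have h := mk_nx_gl S (S.gl s)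
  rw [S.gl_gl] at h
  exact h

lemma del_mem (f : S.Vertex → ℝ) : del S f ∈ S.Zc := by
  constructor
  · intro s
    show f (vx S (nx (S.gl s))) - f (vx S (S.gl s)) =
      -(f (vx S (nx s)) - f (vx S s))
    rw [mk_nx_gl, mk_nx]; ring
  · intro i
    show f (vx S (nx (i, 0))) - f (vx S (i, 0)) +
      (f (vx S (nx (i, 1))) - f (vx S (i, 1))) +
      (f (vx S (nx (i, 2))) - f (vx S (i, 2))) = 0
    have h0 : nx ((i, 0) : Side n) = (i, 1) := rfl
    have h1 : nx ((i, 1) : Side n) = (i, 2) := rfl
    have h2 : nx ((i, 2) : Side n) = (i, 0) := rfl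
    rw [h0, h1, h2]; ring

lemma B_del (f : S.Vertex → ℝ) (q : Side n → ℝ) (hq : q ∈ S.Zc) : Surf.Bf (del S f) q = 0 := by
  obtain ⟨h1, h2⟩ := hq
  have key : Surf.Bf (del S f) q =
      (∑ s : Side n, (f (vx S (nx s)) + f (vx S s)) * q s) / 2 := by
    rw [Fintype.sum_prod_type, Finset.sum_div]
    show ∑ i : Fin n, (_ - _) / 2 = _
    apply Finset.sum_congr rfl
    intro i _
    rw [Fin.sum_univ_three]
    show ((f (vx S (nx (i, 0))) - f (vx S (i, 0))) * q (i, 1) -
      (f (vx S (nx (i, 1))) - f (vx S (i, 1))) * q (i, 0)) / 2 = _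
    have h0 : nx ((i, 0) : Side n) = (i, 1) := rfl
    have h1' : nx ((i, 1) : Side n) = (i, 2) := rfl
    have h2' : nx ((i, 2) : Side n) = (i, 0) := rfl
    have h3 := h2 i
    rw [h0, h1', h2']
    linear_combination (-(f (vx S (i, 0)) + f (vx S (i, 2))) / 2) * h3
  have h4 : ∑ s : Side n, (f (vx S (nx s)) + f (vx S s)) * q s =
      - ∑ s : Side n, (f (vx S (nx s)) + f (vx S s)) * q s := by
    conv_lhs => rw [← Equiv.sum_comp (glE S)]
    rw [← Finset.sum_neg_distrib]
    apply Finset.sum_congr rfl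
    intro s _
    show (f (vx S (nx (S.gl s))) + f (vx S (S.gl s))) * q (S.gl s) = _
    rw [h1 s, mk_nx_gl, mk_nx]; ring
  rw [key]
  linarith

/-- Turning around the first endpoints, as a permutation. -/
def rotE : Equiv.Perm (Side n) where
  toFun := S.rot
  invFun s := S.gl (nx (nx s))
  left_inv s := by
    show S.gl (nx (nx (nx (S.gl s)))) = s
    rw [nx_nx_nx, S.gl_gl]
  right_inv s := by
    show nx (S.gl (S.gl (nx (nx s)))) = s
    rw [S.gl_gl, nx_nx_nx]

lemma mk_rot_iter (k : ℕ) (s : Side n) :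
    vx S (S.rot^[k] s) = vx S s := by
  induction k with
  | zero => rfl
  | succ k ih =>
    rw [Function.iterate_succ_apply', ← ih]
    exact vx_rot S _

lemma chi_del (hcon : S.Conical) (f : S.Vertex → ℝ) : S.chi (del S f) = 0 := by
  -- the sum of log a over the rotations
  have hM : 0 < orderOf (rotE S) := orderOf_pos _
  set M := orderOf (rotE S) with hMdef
  have hit : ∀ k : ℕ, ∀ s, ((rotE S) ^ k) s = S.rot^[k] s := by
    intro k s
    rw [Equiv.Perm.iterate_eq_pow (rotE S) k |>.symm]
    rfl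
  have hlog : ∀ s, ∑ k ∈ Finset.range M, Real.log (S.a (S.rot^[k] s)) = 0 := by
    intro s
    rw [← Real.log_prod (fun k _ => (S.a_pos _).ne')]
    rw [hcon s M (by rw [← hit, hMdef, pow_orderOf_eq_one]; rfl), Real.log_one]
  have h1 : ∑ s : Side n, f (vx S s) * Real.log (S.a s) = 0 := by
    have h2 : ∀ k : ℕ, ∑ s : Side n, f (vx S s) * Real.log (S.a (S.rot^[k] s)) =
        ∑ s : Side n, f (vx S s) * Real.log (S.a s) := by
      intro k
      rw [← Equiv.sum_comp ((rotE S) ^ k) (fun s => f (vx S s) * Real.log (S.a s))]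
      apply Finset.sum_congr rfl
      intro s _
      rw [hit, mk_rot_iter]
    have h3 : (M : ℝ) * ∑ s : Side n, f (vx S s) * Real.log (S.a s) = 0 := by
      calc (M : ℝ) * ∑ s : Side n, f (vx S s) * Real.log (S.a s)
          = ∑ k ∈ Finset.range M, ∑ s : Side n, f (vx S s) *
              Real.log (S.a (S.rot^[k] s)) := by
            rw [Finset.sum_congr rfl (fun k _ => h2 k), Finset.sum_const, Finset.card_range,
              nsmul_eq_mul]
        _ = ∑ s : Side n, f (vx S s) * ∑ k ∈ Finset.range M,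
              Real.log (S.a (S.rot^[k] s)) := by
            rw [Finset.sum_comm]
            apply Finset.sum_congr rfl
            intro s _
            rw [Finset.mul_sum]
        _ = 0 := by simp [hlog]
    have h4 : (M : ℝ) ≠ 0 := by positivity
    exact (mul_eq_zero.mp h3).resolve_left h4
  have h5 : ∑ s : Side n, f (vx S (nx s)) * Real.log (S.a s) =
      - ∑ s : Side n, f (vx S s) * Real.log (S.a s) := by
    conv_lhs => rw [← Equiv.sum_comp (glE S)]
    rw [← Finset.sum_neg_distrib]
    apply Finset.sum_congr rfl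
    intro s _
    show f (vx S (nx (S.gl s))) * Real.log (S.a (S.gl s)) = _
    rw [mk_nx_gl, log_gl]; ring
  show ∑ s : Side n, (f (vx S (nx s)) - f (vx S s)) * Real.log (S.a s) = 0
  simp only [sub_mul, Finset.sum_sub_distrib]
  rw [h5, h1]; ring

variable {S}

lemma ker_del (hc : S.Connected) (i₀ : Fin n) :
    LinearMap.ker (del S) ≤ Submodule.span ℝ {fun _ => (1 : ℝ)} := by
  intro f hf
  rw [LinearMap.mem_ker] at hf
  have h1 : ∀ s : Side n, f (vx S (nx s)) = f (vx S s) := by
    intro s
    have := congrFun hf s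
    have h2 : f (vx S (nx s)) - f (vx S s) = 0 := this
    linarith
  have h2 : ∀ s : Side n, f (vx S s) = f (vx S (s.1, 0)) := by
    rintro ⟨i, k⟩
    have e0 := h1 (i, 0)
    have e1 := h1 (i, 1)
    have h0 : nx ((i, 0) : Side n) = (i, 1) := rfl
    have h1' : nx ((i, 1) : Side n) = (i, 2) := rfl
    rw [h0] at e0
    rw [h1'] at e1
    fin_cases k
    · rfl
    · exact e0
    · exact e1.trans e0
  have h3 := const_of_conn hc (fun i => f (vx S (i, 0))) (by
    intro s
    show f (vx S (s.1, 0)) = f (vx S ((S.gl s).1, 0))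
    rw [← h2 s, ← h2 (S.gl s), ← mk_nx, h1 s])
  rw [Submodule.mem_span_singleton]
  refine ⟨f (vx S (i₀, 0)), ?_⟩
  funext v
  induction v using Quot.ind with
  | mk s =>
    show f (vx S (i₀, 0)) * 1 = f (vx S s)
    rw [mul_one, h2 s]
    exact h3 i₀ s.1

instance : Finite S.Vertex := by unfold Surf.Vertex; infer_instance

/-- **The topological block.** On a connected dilation surface of genus at most two which is not a
translation surface, the intersection form, restricted to the closed cochains orthogonal to the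
class of the scales, is a determinant of two linear forms. -/
theorem top (hc : S.Connected) (hcon : S.Conical) (ht : ¬ S.IsTranslation)
    (hg : n ≤ 2 * Nat.card S.Vertex + 4) :
    ∃ u v : (Side n → ℝ) →ₗ[ℝ] ℝ, ∀ p ∈ S.Zc, S.chi p = 0 → ∀ q ∈ S.Zc, S.chi q = 0 →
      Surf.Bf p q = u p * v q - u q * v p := by
  have hn : 0 < n := by
    rcases Nat.eq_zero_or_pos n with h | h
    · subst h
      exact absurd ⟨fun i => i.elim0, fun i => i.elim0, fun s => s.1.elim0⟩ ht
    · exact h
  let i₀ : Fin n := ⟨0, hn⟩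
  let W : Submodule ℝ (Side n → ℝ) := S.Zc ⊓ LinearMap.ker (chiL S)
  let N : Submodule ℝ (Side n → ℝ) := LinearMap.range (del S)
  have hNW : N ≤ W := by
    rintro _ ⟨f, rfl⟩
    exact ⟨del_mem S f, chi_del S hcon f⟩
  have hB : ∀ x ∈ W, Surf.Bf x x = 0 := by
    intro x _
    show ∑ i : Fin n, (x (i, 0) * x (i, 1) - x (i, 1) * x (i, 0)) / 2 = 0
    apply Finset.sum_eq_zero
    intro i _
    ring
  have hN : ∀ x ∈ N, ∀ y ∈ W, Surf.Bf x y = 0 := by
    rintro _ ⟨f, rfl⟩ y hy
    exact B_del S f y hy.1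
  -- dimensions
  have e1 := finrank_Ac S
  have e2 := (D1 S).finrank_range_add_finrank_ker
  have e3 := rank_D1 hc i₀
  have e4 := finrank_Zc S
  have e5 : finrank ℝ W + 1 = finrank ℝ S.Zc := by
    obtain ⟨p, hp, hchi⟩ := chi_ne ht
    let f : Module.Dual ℝ S.Zc := (chiL S).comp S.Zc.subtype
    have hf : f ≠ 0 := by
      intro h
      exact hchi (LinearMap.congr_fun h ⟨p, hp⟩)
    have h6 := Module.Dual.finrank_ker_add_one_of_ne_zero hf
    have h7 : finrank ℝ W = finrank ℝ (LinearMap.ker f) := by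
      have h8 : W = (LinearMap.ker f).map S.Zc.subtype := by
        ext q
        rw [Submodule.mem_map]
        constructor
        · rintro ⟨h1, h2⟩
          exact ⟨⟨q, h1⟩, h2, rfl⟩
        · rintro ⟨q, hq, rfl⟩
          exact ⟨q.2, hq⟩
      rw [h8]
      exact Submodule.finrank_map_subtype_eq _ _
    rw [h7]
    exact h6
  have e6 := (del S).finrank_range_add_finrank_ker
  have e7 : finrank ℝ (LinearMap.ker (del S)) ≤ 1 := by
    refine (Submodule.finrank_mono (ker_del hc i₀)).trans ?_
    refine (finrank_span_le_card _).trans ?_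
    simp
  have e8 : finrank ℝ (S.Vertex → ℝ) = Nat.card S.Vertex := by
    have := Fintype.ofFinite S.Vertex
    rw [Module.finrank_fintype_fun_eq_card, Nat.card_eq_fintype_card]
  have hd : finrank ℝ W ≤ finrank ℝ N + 3 := by
    show finrank ℝ W ≤ finrank ℝ (LinearMap.range (del S)) + 3
    omega
  obtain ⟨u, v, huv⟩ := decomp Surf.Bf W N hNW hB hN hd
  exact ⟨u, v, fun p hp hp' q hq hq' => huv p ⟨hp, hp'⟩ q ⟨hq, hq'⟩⟩

end Pool.Agent.H85.G2
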