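import Pool.Agent.H85.G2.Top2

/-!
# Dilation surfaces of genus at most two: three classes orthogonal to the scales are dependent
modulo the class of the scales and the exact cochains
-/

set_option autoImplicit false

namespace Pool.Agent.H85.G2

open Pool.Agent.H44.DU Module

variable {n : ℕ} {S : Surf n}

/-- Units at the corners of the triangles, compatible around the vertices. -/
theorem units (hcon : S.Conical) : ∃ l : Side n → ℝ, ∀ s, l (S.rot s) = l s + Real.log (S.a s) := by
  have hM : 0 < orderOf (rotE S) := orderOf_pos _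
  set M := orderOf (rotE S) with hMdef
  have hit : ∀ k : ℕ, ∀ s, ((rotE S) ^ k) s = S.rot^[k] s := by
    intro k s
    rw [Equiv.Perm.iterate_eq_pow (rotE S) k |>.symm]
    rfl
  have hMs : ∀ s, S.rot^[M] s = s := by
    intro s
    rw [← hit, hMdef, pow_orderOf_eq_one]; rfl
  have hlog : ∀ s, ∑ k ∈ Finset.range M, Real.log (S.a (S.rot^[k] s)) = 0 := by
    intro s
    rw [← Real.log_prod (fun k _ => (S.a_pos _).ne'), hcon s M (hMs s), Real.log_one]
  have hM0 : (M : ℝ) ≠ 0 := by positivity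
  refine ⟨fun s => (∑ k ∈ Finset.range M, (k : ℝ) * Real.log (S.a (S.rot^[k] s))) / M,
    fun s => ?_⟩
  set g : ℕ → ℝ := fun k => Real.log (S.a (S.rot^[k] s)) with hg
  have h1 : ∀ k, Real.log (S.a (S.rot^[k] (S.rot s))) = g (k + 1) := fun k => rfl
  have h2 : g M = g 0 := by
    show Real.log (S.a (S.rot^[M] s)) = Real.log (S.a (S.rot^[0] s))
    rw [hMs]; rfl
  have h3 : ∑ k ∈ Finset.range M, ((k : ℝ) * g (k + 1) - (k : ℝ) * g k) = M * g 0 := by
    have h4 : ∀ m : ℕ, ∑ k ∈ Finset.range m, ((k : ℝ) * g (k + 1) - (k : ℝ) * g k) =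
        m * g m - ∑ k ∈ Finset.range m, g (k + 1) := by
      intro m
      induction m with
      | zero => simp
      | succ m ih =>
        rw [Finset.sum_range_succ, ih, Finset.sum_range_succ]
        push_cast
        ring
    rw [h4, h2]
    have h5 : ∑ k ∈ Finset.range M, g (k + 1) = ∑ k ∈ Finset.range M, g k := by
      have h6 := Finset.sum_range_succ g M
      have h7 := Finset.sum_range_succ' g M
      linarith
    rw [h5, hlog s]; ring
  show (∑ k ∈ Finset.range M, (k : ℝ) * Real.log (S.a (S.rot^[k] (S.rot s)))) / M =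
    (∑ k ∈ Finset.range M, (k : ℝ) * g k) / M + g 0
  simp only [h1]
  rw [Finset.sum_sub_distrib] at h3
  field_simp
  linarith

lemma B_corner (l q : Side n → ℝ) (hq : q ∈ S.Zc) :
    Surf.Bf (fun s => l (nx s) - l s) q = (∑ s : Side n, (l (nx s) + l s) * q s) / 2 := by
  obtain ⟨_, h2⟩ := hq
  rw [Fintype.sum_prod_type, Finset.sum_div]
  show ∑ i : Fin n, (_ - _) / 2 = _
  apply Finset.sum_congr rfl
  intro i _
  rw [Fin.sum_univ_three]
  show ((l (nx (i, 0)) - l (i, 0)) * q (i, 1) - (l (nx (i, 1)) - l (i, 1)) * q (i, 0)) / 2 = _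
  have h0 : nx ((i, 0) : Side n) = (i, 1) := rfl
  have h1' : nx ((i, 1) : Side n) = (i, 2) := rfl
  have h2' : nx ((i, 2) : Side n) = (i, 0) := rfl
  have h3 := h2 i
  rw [h0, h1', h2']
  linear_combination (-(l (i, 0) + l (i, 2)) / 2) * h3

/-- The class of the scales is represented by the differences of the logarithms of the units. -/
lemma rho_mem {l : Side n → ℝ} (hl : ∀ s, l (S.rot s) = l s + Real.log (S.a s)) :
    (fun s => l (nx s) - l s) ∈ S.Zc := by
  have h1 : ∀ s, l (nx (S.gl s)) = l s + Real.log (S.a s) := hl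
  constructor
  · intro s
    have h2 := h1 s
    have h3 := h1 (S.gl s)
    rw [S.gl_gl, log_gl] at h3
    show l (nx (S.gl s)) - l (S.gl s) = -(l (nx s) - l s)
    linarith
  · intro i
    show l (nx (i, 0)) - l (i, 0) + (l (nx (i, 1)) - l (i, 1)) + (l (nx (i, 2)) - l (i, 2)) = 0
    have h0 : nx ((i, 0) : Side n) = (i, 1) := rfl
    have h1 : nx ((i, 1) : Side n) = (i, 2) := rfl
    have h2 : nx ((i, 2) : Side n) = (i, 0) := rfl
    rw [h0, h1, h2]; ring

lemma B_rho {l : Side n → ℝ} (hl : ∀ s, l (S.rot s) = l s + Real.log (S.a s))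
    (q : Side n → ℝ) (hq : q ∈ S.Zc) :
    Surf.Bf (fun s => l (nx s) - l s) q = - S.chi q / 2 := by
  have h1 : ∀ s, l (nx (S.gl s)) = l s + Real.log (S.a s) := hl
  rw [B_corner l q hq]
  have h4 : ∑ s : Side n, (l (nx s) + l s) * q s =
      - ∑ s : Side n, (l (nx s) + l s) * q s - 2 * S.chi q := by
    conv_lhs => rw [← Equiv.sum_comp (glE S)]
    rw [Surf.chi, Finset.mul_sum, ← Finset.sum_neg_distrib, ← Finset.sum_sub_distrib]
    apply Finset.sum_congr rfl
    intro s _
    show (l (nx (S.gl s)) + l (S.gl s)) * q (S.gl s) = _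
    have h2 := h1 s
    have h3 := h1 (S.gl s)
    rw [S.gl_gl, log_gl] at h3
    rw [hq.1 s, h2, show l (S.gl s) = l (nx s) + Real.log (S.a s) by linarith]
    ring
  linarith

/-- The exact cochains are orthogonal to the closed ones. -/
theorem B_exact (f : S.Vertex → ℝ) (q : Side n → ℝ) (hq : q ∈ S.Zc) :
    Surf.Bf (fun s => f (vx S (nx s)) - f (vx S s)) q = 0 := B_del S f q hq

/-- **The linear algebra of genus at most two.** Three closed cochains orthogonal to the class of
the scales are linearly dependent modulo the class of the scales and the exact cochains. -/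
theorem three (hc : S.Connected) (hcon : S.Conical) (ht : ¬ S.IsTranslation)
    (hg : n ≤ 2 * Nat.card S.Vertex + 4) {l : Side n → ℝ}
    (hl : ∀ s, l (S.rot s) = l s + Real.log (S.a s)) (c : Fin 3 → Side n → ℝ)
    (hcz : ∀ j, c j ∈ S.Zc) (hcc : ∀ j, S.chi (c j) = 0) :
    ∃ (x : Fin 3 → ℝ) (κ : ℝ) (f : S.Vertex → ℝ), x ≠ 0 ∧
      ∀ s, x 0 * c 0 s + x 1 * c 1 s + x 2 * c 2 s =
        κ * (l (nx s) - l s) + (f (vx S (nx s)) - f (vx S s)) := by
  have hn : 0 < n := by
    rcases Nat.eq_zero_or_pos n with h | h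
    · subst h
      exact absurd ⟨fun i => i.elim0, fun i => i.elim0, fun s => s.1.elim0⟩ ht
    · exact h
  let i₀ : Fin n := ⟨0, hn⟩
  let W : Submodule ℝ (Side n → ℝ) := S.Zc ⊓ LinearMap.ker (chiL S)
  let N : Submodule ℝ (Side n → ℝ) := LinearMap.range (del S)
  let ρ : Side n → ℝ := fun s => l (nx s) - l s
  have hρZ : ρ ∈ S.Zc := rho_mem hl
  have hρW : ρ ∈ W := by
    refine ⟨hρZ, ?_⟩
    have h1 : Surf.Bf ρ ρ = - S.chi ρ / 2 := B_rho hl ρ hρZ
    have h2 : Surf.Bf ρ ρ = 0 := by
      show ∑ i : Fin n, (ρ (i, 0) * ρ (i, 1) - ρ (i, 1) * ρ (i, 0)) / 2 = 0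
      apply Finset.sum_eq_zero
      intro i _
      ring
    have h3 : S.chi ρ = 0 := by linarith
    exact h3
  have hNW : N ≤ W := by
    rintro _ ⟨f, rfl⟩
    exact ⟨del_mem S f, chi_del S hcon f⟩
  obtain ⟨p, hp, hchi⟩ := chi_ne ht
  -- dimensions
  have e1 := finrank_Ac S
  have e2 := (D1 S).finrank_range_add_finrank_ker
  have e3 := rank_D1 hc i₀
  have e4 := finrank_Zc S
  have e5 : finrank ℝ W + 1 = finrank ℝ S.Zc := by
    let f : Module.Dual ℝ S.Zc := (chiL S).comp S.Zc.subtype
    have hf : f ≠ 0 := by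
      intro h
      exact hchi (LinearMap.congr_fun h ⟨p, hp⟩)
    have h6 := Module.Dual.finrank_ker_add_one_of_ne_zero hf
    have h7 : finrank ℝ W = finrank ℝ (LinearMap.ker f) := by
      have h8 : W = (LinearMap.ker f).map S.Zc.subtype := by
        ext q
        rw [Submodule.mem_map]
        constructor
        · rintro ⟨h1, h2⟩
          exact ⟨⟨q, h1⟩, h2, rfl⟩
        · rintro ⟨q, hq, rfl⟩
          exact ⟨q.2, hq⟩
      rw [h8]
      exact Submodule.finrank_map_subtype_eq _ _
    rw [h7]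
    exact h6
  have e6 := (del S).finrank_range_add_finrank_ker
  have e7 : finrank ℝ (LinearMap.ker (del S)) ≤ 1 := by
    refine (Submodule.finrank_mono (ker_del hc i₀)).trans ?_
    refine (finrank_span_le_card _).trans ?_
    simp
  have e8 : finrank ℝ (S.Vertex → ℝ) = Nat.card S.Vertex := by
    have := Fintype.ofFinite S.Vertex
    rw [Module.finrank_fintype_fun_eq_card, Nat.card_eq_fintype_card]
  have hd : finrank ℝ W ≤ finrank ℝ N + 3 := by
    show finrank ℝ W ≤ finrank ℝ (LinearMap.range (del S)) + 3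
    omega
  -- the map
  let φ : ((Fin 3 → ℝ) × ℝ × N) →ₗ[ℝ] W :=
    { toFun := fun m => ⟨(m.1 0 • c 0 + m.1 1 • c 1 + m.1 2 • c 2) - m.2.1 • ρ -
          (m.2.2 : Side n → ℝ),
        W.sub_mem (W.sub_mem (W.add_mem (W.add_mem (W.smul_mem _ ⟨hcz 0, hcc 0⟩)
          (W.smul_mem _ ⟨hcz 1, hcc 1⟩)) (W.smul_mem _ ⟨hcz 2, hcc 2⟩)) (W.smul_mem _ hρW))
          (hNW m.2.2.2)⟩
      map_add' := by
        intro a b
        apply Subtype.ext
        simp only [Prod.fst_add, Prod.snd_add, Submodule.coe_add, Pi.add_apply]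
        module
      map_smul' := by
        intro k a
        apply Subtype.ext
        simp only [Prod.smul_fst, Prod.smul_snd, Submodule.coe_smul, Pi.smul_apply,
          smul_eq_mul, RingHom.id_apply]
        module }
  have hnotinj : ¬ Function.Injective φ := by
    intro h
    have h7 := LinearMap.finrank_le_finrank_of_injective h
    rw [Module.finrank_prod, Module.finrank_prod, Module.finrank_fin_fun, Module.finrank_self] at h7
    omega
  rw [← LinearMap.ker_eq_bot, Submodule.eq_bot_iff] at hnotinj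
  push Not at hnotinj
  obtain ⟨m, hm, hm0⟩ := hnotinj
  rw [LinearMap.mem_ker] at hm
  have hm' : (m.1 0 • c 0 + m.1 1 • c 1 + m.1 2 • c 2) - m.2.1 • ρ - (m.2.2 : Side n → ℝ) = 0 :=
    congrArg Subtype.val hm
  obtain ⟨f, hf⟩ : ∃ f, del S f = (m.2.2 : Side n → ℝ) := m.2.2.2
  refine ⟨m.1, m.2.1, f, ?_, fun s => ?_⟩
  · intro hx
    -- then ρ would be exact or everything vanishes
    apply hm0
    have h1 : m.2.1 • ρ + (m.2.2 : Side n → ℝ) = 0 := by
      rw [hx] at hm'
      simp only [Pi.zero_apply, zero_smul, add_zero, zero_sub] at hm'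
      have : -(m.2.1 • ρ + (m.2.2 : Side n → ℝ)) = 0 := by
        rw [← hm']; module
      exact neg_eq_zero.mp this
    have h2 := congrArg (fun w => Surf.Bf w p) h1
    simp only [map_add, map_smul, LinearMap.add_apply, LinearMap.smul_apply, smul_eq_mul,
      map_zero, LinearMap.zero_apply] at h2
    rw [← hf, B_del S f p hp, show Surf.Bf ρ p = - S.chi p / 2 from B_rho hl p hp, add_zero] at h2
    have h3 : m.2.1 = 0 := by
      rcases mul_eq_zero.mp h2 with h | h
      · exact h
      · exfalso; apply hchi; linarith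
    have h4 : (m.2.2 : Side n → ℝ) = 0 := by
      rw [h3, zero_smul, zero_add] at h1
      exact h1
    exact Prod.ext hx (Prod.ext h3 (Subtype.ext h4))
  · have h1 := congrFun hm' s
    rw [← hf] at h1
    have h2 : m.1 0 * c 0 s + m.1 1 * c 1 s + m.1 2 * c 2 s - m.2.1 * (l (nx s) - l s) -
      (f (vx S (nx s)) - f (vx S s)) = 0 := h1
    linarith

end Pool.Agent.H85.G2
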